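import Mathlib

/-!
# The rank of the `p`-adic closure of a group of rational points

`A` is an abelian variety over the rational numbers, `M = A(ℚ) ⊗ ℚ`, `Λ` is the tangent space of `A`
at the origin (a vector space over the rational numbers) and `log : M → ℚ_p ⊗ Λ` is the `p`-adic
logarithm.
-/

namespace Pool.Agent.W522.Q

open Module TensorProduct

variable (p : ℕ) [Fact p.Prime] {M Λ : Type*} [AddCommGroup M] [Module ℚ M] [AddCommGroup Λ]
  [Module ℚ Λ]

/-- The `ℤ_p`-rank of the closure in `A(ℚ_p)` of a subgroup of `A(ℚ)`: the dimension of the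
`ℚ_p`-subspace spanned by the logarithms. -/
noncomputable def closureRank {p : ℕ} [Fact p.Prime] (log : M →ₗ[ℚ] ℚ_[p] ⊗[ℚ] Λ)
    (L : Submodule ℚ M) : ℕ :=
  finrank ℚ_[p] (Submodule.span ℚ_[p] (log '' (L : Set M)))

/-- The `p`-adic analytic subgroup theorem for `A`, simple over the rational numbers: a nonzero
linear form on the tangent space with algebraic coefficients (in the algebraically closed field `Ω`
containing `ℚ_p`) does not vanish at the logarithm of a rational point of infinite order. -/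
def AnalyticSubgroupTheorem {p : ℕ} [Fact p.Prime] (Ω : Type*) [Field Ω] [Algebra ℚ_[p] Ω]
    [Algebra ℚ Ω] (log : M →ₗ[ℚ] ℚ_[p] ⊗[ℚ] Λ) : Prop :=
  ∀ P : M, P ≠ 0 → ∀ lam : Λ →ₗ[ℚ] Ω, (∀ x, IsAlgebraic ℚ (lam x)) → lam ≠ 0 →
    LinearMap.liftBaseChange ℚ_[p] lam (log P) ≠ 0

/-- The action of the endomorphism `a` on the `p`-adic tangent space. -/
noncomputable def act {F : Type*} [Field F] [Algebra ℚ F] [Module F Λ] [IsScalarTower ℚ F Λ]
    (a : F) : ℚ_[p] ⊗[ℚ] Λ →ₗ[ℚ_[p]] ℚ_[p] ⊗[ℚ] Λ :=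
  LinearMap.baseChange ℚ_[p] (Algebra.lsmul ℚ ℚ Λ a)

end Pool.Agent.W522.Q
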