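import Mathlib
import Pool.Agent.W522.Q.Defs

/-!
# The rank of the `p`-adic closure of a group of rational points: proofs
-/

namespace Pool.Agent.W522.Q

open Module TensorProduct

noncomputable section

variable {p : ℕ} [Fact p.Prime] {F : Type*} [Field F] [NumberField F]
  {M Λ : Type*} [AddCommGroup M] [Module ℚ M] [Module F M] [IsScalarTower ℚ F M]
  [AddCommGroup Λ] [Module ℚ Λ] [Module F Λ] [IsScalarTower ℚ F Λ]

/-- If all embeddings kill a combination, it is zero. -/
theorem coeff_zero {Ω : Type*} [Field Ω] [CharZero Ω] [IsAlgClosed Ω] [Algebra ℚ Ω]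
    {ι : Type*} [Fintype ι] (b : Basis ι ℚ F) (c : ι → Ω)
    (h : ∀ τ : F →ₐ[ℚ] Ω, ∑ j, c j * τ (b j) = 0) : c = 0 := by
  classical
  have hcard : Fintype.card ι = Fintype.card (F →ₐ[ℚ] Ω) := by
    rw [AlgHom.card, ← Module.finrank_eq_card_basis b]
  obtain ⟨e⟩ := Fintype.card_eq.1 hcard
  have hdet : (Algebra.embeddingsMatrixReindex ℚ Ω b e).det ≠ 0 := by
    have h1 := Algebra.discr_eq_det_embeddingsMatrixReindex_pow_two ℚ Ω b e
    have h2 := Algebra.discr_not_zero_of_basis ℚ b
    intro h3
    rw [h3, zero_pow two_ne_zero] at h1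
    exact h2 ((map_eq_zero_iff _ (algebraMap ℚ Ω).injective).1 h1)
  refine Matrix.eq_zero_of_vecMul_eq_zero hdet ?_
  funext i
  have h1 := h (e i)
  rw [Pi.zero_apply, ← h1]
  rfl

variable (log : M →ₗ[ℚ] ℚ_[p] ⊗[ℚ] Λ) (hlog : ∀ (a : F) (P : M), log (a • P) = act p a (log P))
  (Ω : Type*) [Field Ω] [CharZero Ω] [IsAlgClosed Ω] [Algebra ℚ_[p] Ω] [Algebra ℚ Ω]
  (hA : AnalyticSubgroupTheorem Ω log)

omit [CharZero Ω] [IsAlgClosed Ω] in
/-- The equivariance of the forms. -/
theorem lift_act (τ : F →ₐ[ℚ] Ω) (lam : Λ →ₗ[ℚ] Ω) (h : ∀ (a : F) x, lam (a • x) = τ a * lam x)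
    (a : F) (v : ℚ_[p] ⊗[ℚ] Λ) :
    LinearMap.liftBaseChange ℚ_[p] lam (act p a v) =
      τ a * LinearMap.liftBaseChange ℚ_[p] lam v := by
  induction v with
  | zero => rw [map_zero, map_zero, mul_zero]
  | add x y hx hy => rw [map_add, map_add, map_add, hx, hy, mul_add]
  | tmul c x =>
    unfold act
    rw [LinearMap.baseChange_tmul, LinearMap.liftBaseChange_tmul, LinearMap.liftBaseChange_tmul,
      Algebra.lsmul_coe, h, Algebra.smul_def, Algebra.smul_def]
    ring

include hlog hA in
/-- The key independence. -/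
theorem indep [Nontrivial Λ] {P : M} (hP : P ≠ 0) {ι : Type*} [Fintype ι] (b : Basis ι ℚ F)
    (c : ι → ℚ_[p]) (h : ∑ j, c j • log (b j • P) = 0) : c = 0 := by
  have h1 : (fun j => algebraMap ℚ_[p] Ω (c j)) = 0 := by
    refine coeff_zero b _ fun τ => ?_
    obtain ⟨y, hy⟩ := exists_ne (0 : Λ)
    obtain ⟨μ, hμ⟩ : ∃ μ : Dual F Λ, μ y ≠ 0 := by
      by_contra hcon
      push Not at hcon
      exact hy ((Module.forall_dual_apply_eq_zero_iff F y).1 hcon)
    let lam : Λ →ₗ[ℚ] Ω := τ.toLinearMap.comp (μ.restrictScalars ℚ)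
    have hlam : ∀ x, lam x = τ (μ x) := fun _ => rfl
    have h2 : ∀ (a : F) x, lam (a • x) = τ a * lam x := by
      intro a x
      rw [hlam, hlam, map_smul, smul_eq_mul, map_mul]
    have h3 : lam ≠ 0 := by
      intro h0
      apply hμ
      have h4 := congrArg (fun f : Λ →ₗ[ℚ] Ω => f y) h0
      change τ (μ y) = 0 at h4
      exact (map_eq_zero_iff τ τ.injective).1 h4
    have h4 := hA P hP lam (fun x => by
      rw [hlam]
      exact (Algebra.IsAlgebraic.isAlgebraic (R := ℚ) (μ x)).algHom τ) h3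
    have h5 := congrArg (LinearMap.liftBaseChange ℚ_[p] lam) h
    rw [map_sum, map_zero] at h5
    have h6 : (∑ j, algebraMap ℚ_[p] Ω (c j) * τ (b j)) *
        LinearMap.liftBaseChange ℚ_[p] lam (log P) = 0 := by
      rw [← h5, Finset.sum_mul]
      refine Finset.sum_congr rfl fun j _ => ?_
      rw [map_smul, hlog, lift_act Ω τ lam h2, Algebra.smul_def]
      ring
    exact (mul_eq_zero.1 h6).resolve_right h4
  funext j
  have h2 := congrFun h1 j
  exact (map_eq_zero_iff _ (algebraMap ℚ_[p] Ω).injective).1 h2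

include hlog hA in
/-- The map `x ↦ x log P` of `ℚ_p ⊗ F` is injective. -/
theorem indep' [Nontrivial Λ] {P : M} (hP : P ≠ 0) {ι : Type*} (a : ι → F)
    (ha : LinearIndependent ℚ a) : LinearIndependent ℚ_[p] (fun j => log (a j • P)) := by
  classical
  let b := Module.finBasis ℚ F
  -- the logarithms of the basis
  have h0 : LinearIndependent ℚ_[p] (fun j => log (b j • P)) := by
    rw [Fintype.linearIndependent_iff]
    intro c hc j
    exact congrFun (indep log hlog Ω hA hP b c hc) j
  -- the linear map from `ℚ_p ⊗ F`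
  let f : ℚ_[p] ⊗[ℚ] F →ₗ[ℚ_[p]] ℚ_[p] ⊗[ℚ] Λ :=
    LinearMap.liftBaseChange ℚ_[p] (log.comp ((LinearMap.toSpanSingleton F M P).restrictScalars ℚ))
  have hf : ∀ (c : ℚ_[p]) (x : F), f (c ⊗ₜ x) = c • log (x • P) := fun _ _ => rfl
  have hinj : LinearMap.ker f = ⊥ := by
    have h1 : LinearIndependent ℚ_[p] (f ∘ (b.baseChange ℚ_[p])) := by
      have h2 : (f ∘ (b.baseChange ℚ_[p])) = fun j => log (b j • P) := by
        funext j
        rw [Function.comp_apply, Basis.baseChange_apply, hf, one_smul]
      rw [h2]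
      exact h0
    rw [LinearMap.ker_eq_bot']
    intro x hx
    rw [← (b.baseChange ℚ_[p]).sum_repr x, map_sum] at hx
    simp only [map_smul] at hx
    have h3 := Fintype.linearIndependent_iff.1 h1 _ hx
    rw [← (b.baseChange ℚ_[p]).sum_repr x]
    refine Finset.sum_eq_zero fun j _ => ?_
    rw [h3 j, zero_smul]
  have h1 : LinearIndependent ℚ_[p] (fun j => (1 : ℚ_[p]) ⊗ₜ[ℚ] a j) := by
    exact Module.Flat.linearIndependent_one_tmul ha
  have h2 := h1.map' f hinj
  have h3 : (⇑f ∘ fun j => (1 : ℚ_[p]) ⊗ₜ[ℚ] a j) = fun j => log (a j • P) := by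
    funext j
    rw [Function.comp_apply, hf, one_smul]
  rwa [h3] at h2

include hlog hA in
/-- The rank of a subgroup of a cyclic module. -/
theorem rank_cyclic [Nontrivial Λ] [FiniteDimensional ℚ M] (L : Submodule ℚ M) (P : M)
    (hL : ∀ x ∈ L, ∃ a : F, x = a • P) : closureRank log L = finrank ℚ L := by
  classical
  by_cases hP : P = 0
  · have h1 : L = ⊥ := by
      rw [eq_bot_iff]
      intro x hx
      obtain ⟨a, rfl⟩ := hL x hx
      rw [hP, smul_zero]
      exact Submodule.zero_mem _
    subst h1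
    unfold closureRank
    rw [Submodule.bot_coe, Set.image_singleton, map_zero, Submodule.span_zero_singleton,
      finrank_bot, finrank_bot]
  · let b := Module.finBasis ℚ L
    choose a ha using fun j => hL (b j) (b j).2
    have h1 : LinearIndependent ℚ a := by
      rw [Fintype.linearIndependent_iff]
      intro c hc
      have h2 : ∑ j, c j • b j = 0 := by
        apply Subtype.ext
        rw [Submodule.coe_sum, Submodule.coe_zero]
        have h3 : (∑ j, c j • a j) • P = 0 := by rw [hc, zero_smul]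
        rw [Finset.sum_smul] at h3
        rw [← h3]
        refine Finset.sum_congr rfl fun j _ => ?_
        rw [Submodule.coe_smul, ha j, smul_assoc]
      exact Fintype.linearIndependent_iff.1 b.linearIndependent c h2
    have h2 := indep' log hlog Ω hA hP a h1
    have h3 : Submodule.span ℚ_[p] (log '' (L : Set M)) =
        Submodule.span ℚ_[p] (Set.range fun j => log (a j • P)) := by
      apply le_antisymm
      · rw [Submodule.span_le]
        rintro _ ⟨x, hx, rfl⟩
        have h4 : x = ∑ j, (b.repr ⟨x, hx⟩ j) • (a j • P) := by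
          have h5 := congrArg Subtype.val (b.sum_repr ⟨x, hx⟩)
          rw [Submodule.coe_sum] at h5
          refine h5.symm.trans (Finset.sum_congr rfl fun j _ => ?_)
          rw [Submodule.coe_smul, ha j]
        rw [SetLike.mem_coe, h4, map_sum]
        refine Submodule.sum_mem _ fun j _ => ?_
        rw [map_smul]
        have h6 : ((b.repr ⟨x, hx⟩ j) : ℚ) • log (a j • P) =
            ((b.repr ⟨x, hx⟩ j : ℚ) : ℚ_[p]) • log (a j • P) := (Rat.cast_smul_eq_qsmul _ _ _).symm
        rw [h6]
        exact Submodule.smul_mem _ _ (Submodule.subset_span ⟨j, rfl⟩)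
      · rw [Submodule.span_le]
        rintro _ ⟨j, rfl⟩
        apply Submodule.subset_span
        refine ⟨b j, (b j).2, ?_⟩
        rw [ha j]
    unfold closureRank
    rw [h3, finrank_span_eq_card h2, Fintype.card_fin]

/-- Monotonicity of the rank of the closure. -/
theorem rank_mono [FiniteDimensional ℚ Λ] {L L' : Submodule ℚ M} (h : L ≤ L') :
    closureRank log L ≤ closureRank log L' :=
  Submodule.finrank_mono (Submodule.span_mono (Set.image_mono h))

/-- The rank of the closure is at most the dimension of `A`. -/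
theorem rank_le [FiniteDimensional ℚ Λ] (L : Submodule ℚ M) :
    closureRank log L ≤ finrank ℚ Λ := by
  have h1 := Submodule.finrank_le (Submodule.span ℚ_[p] (log '' (L : Set M)))
  rwa [Module.finrank_baseChange] at h1

end

end Pool.Agent.W522.Q
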