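import Mathlib
import Pool.Agent.W522.Q.Q1

/-!
# The rank of the `p`-adic closure of a group of rational points: large subgroups
-/

namespace Pool.Agent.W522.Q

open Module TensorProduct

noncomputable section

variable {p : ℕ} [Fact p.Prime] {F : Type*} [Field F] [NumberField F]
  {M Λ : Type*} [AddCommGroup M] [Module ℚ M] [Module F M] [IsScalarTower ℚ F M]
  [AddCommGroup Λ] [Module ℚ Λ] [Module F Λ] [IsScalarTower ℚ F Λ]
  [FiniteDimensional ℚ M] [FiniteDimensional ℚ Λ]

/-- A large rational subspace of an `F`-vector space contains a line. -/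
theorem exists_line (L : Submodule ℚ M) (h : finrank F M * (finrank ℚ F - 1) < finrank ℚ L) :
    ∃ P : M, P ≠ 0 ∧ ∀ a : F, a • P ∈ L := by
  classical
  have _ : FiniteDimensional F M := FiniteDimensional.right ℚ F M
  have hM : finrank ℚ F * finrank F M = finrank ℚ M := Module.finrank_mul_finrank ℚ F M
  let b := Module.finBasis ℚ F
  -- the linear map whose kernel is the largest `F`-subspace
  let f : M →ₗ[ℚ] (Fin (finrank ℚ F) → M ⧸ L) :=
    LinearMap.pi fun j => L.mkQ.comp (Algebra.lsmul ℚ ℚ M (b j))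
  have hf : ∀ x j, f x j = L.mkQ (b j • x) := fun _ _ => rfl
  have h1 : finrank ℚ (LinearMap.range f) + finrank ℚ (LinearMap.ker f) = finrank ℚ M :=
    LinearMap.finrank_range_add_finrank_ker f
  have h2 : finrank ℚ (LinearMap.range f) ≤ finrank ℚ F * finrank ℚ (M ⧸ L) := by
    refine (Submodule.finrank_le _).trans ?_
    rw [Module.finrank_pi_fintype, Finset.sum_const, Finset.card_univ, Fintype.card_fin,
      smul_eq_mul]
  have h3 : finrank ℚ (M ⧸ L) + finrank ℚ L = finrank ℚ M := L.finrank_quotient_add_finrank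
  have hn : 0 < finrank ℚ F := Module.finrank_pos
  have h4 : finrank ℚ (M ⧸ L) < finrank F M := by
    obtain ⟨n, hn'⟩ : ∃ n, finrank ℚ F = n + 1 := ⟨finrank ℚ F - 1, by omega⟩
    rw [hn'] at h hM
    rw [Nat.add_sub_cancel] at h
    have h5 : finrank F M * n + finrank F M = finrank ℚ M := by
      rw [← hM]
      ring
    omega
  have h5 : LinearMap.ker f ≠ ⊥ := by
    intro h0
    rw [h0, finrank_bot, add_zero] at h1
    have h6 : finrank ℚ F * finrank ℚ (M ⧸ L) < finrank ℚ F * finrank F M :=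
      Nat.mul_lt_mul_of_pos_left h4 hn
    omega
  obtain ⟨P, hP, hP0⟩ := Submodule.exists_mem_ne_zero_of_ne_bot h5
  refine ⟨P, hP0, fun a => ?_⟩
  rw [← b.sum_repr a, Finset.sum_smul]
  refine Submodule.sum_mem _ fun j _ => ?_
  rw [smul_assoc]
  refine Submodule.smul_mem _ _ ?_
  have h6 := congrFun (LinearMap.mem_ker.1 hP) j
  rw [hf] at h6
  exact (Submodule.Quotient.mk_eq_zero L).1 h6

variable (log : M →ₗ[ℚ] ℚ_[p] ⊗[ℚ] Λ) (hlog : ∀ (a : F) (P : M), log (a • P) = act p a (log P))
  (Ω : Type*) [Field Ω] [CharZero Ω] [IsAlgClosed Ω] [Algebra ℚ_[p] Ω] [Algebra ℚ Ω]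
  (hA : AnalyticSubgroupTheorem Ω log)

include hlog hA in
theorem rank_large [Nontrivial Λ] (hn : finrank ℚ Λ = finrank ℚ F) (L : Submodule ℚ M)
    (h : finrank F M * (finrank ℚ F - 1) < finrank ℚ L) : closureRank log L = finrank ℚ Λ := by
  obtain ⟨P, hP, hPL⟩ := exists_line L h
  let g : F →ₗ[ℚ] M := (LinearMap.toSpanSingleton F M P).restrictScalars ℚ
  have hg : ∀ a, g a = a • P := fun _ => rfl
  have h1 : closureRank log (LinearMap.range g) = finrank ℚ (LinearMap.range g) :=
    rank_cyclic log hlog Ω hA _ P (by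
      rintro _ ⟨a, rfl⟩
      exact ⟨a, rfl⟩)
  have h2 : finrank ℚ (LinearMap.range g) = finrank ℚ F := by
    refine LinearMap.finrank_range_of_inj ?_
    rw [injective_iff_map_eq_zero]
    intro a ha
    rw [hg] at ha
    exact (smul_eq_zero.1 ha).resolve_right hP
  have h3 : closureRank log (LinearMap.range g) ≤ closureRank log L := by
    refine rank_mono log ?_
    rintro _ ⟨a, rfl⟩
    exact hPL a
  have h4 := rank_le log L
  omega

include hlog hA in
theorem rank_one [Nontrivial Λ] (h1 : finrank F M ≤ 1) (L : Submodule ℚ M) :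
    closureRank log L = finrank ℚ L := by
  have _ : FiniteDimensional F M := FiniteDimensional.right ℚ F M
  obtain ⟨P, hP⟩ := finrank_le_one_iff.1 h1
  exact rank_cyclic log hlog Ω hA L P fun x _ => by
    obtain ⟨a, ha⟩ := hP x
    exact ⟨a, ha.symm⟩

end

end Pool.Agent.W522.Q
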